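import Pool.Agent.Helper99.MKV.GoalsC

/-!
# MKV, packet YVB
-/

set_option autoImplicit false

open Finset

namespace Pool.Agent.Helper3.MKV

open Pool.Agent.Helper99.MKV Pool.Agent.Helper99.EXC Pool.Agent.Helper99.ERW

lemma Bx_mono (b : ℕ) {k m : ℕ} (h : k ≤ m) : Bx b k ⊆ Bx b m := by
  intro x hx
  unfold Bx at hx ⊢
  rw [mem_box] at hx ⊢
  intro l
  refine (hx l).trans ?_
  exact_mod_cast Nat.mul_le_mul_left b (Nat.pow_le_pow_right (by norm_num) h)

lemma cv_abs {E ι : Type} [Fintype ι] {U : Sys E ι} (hU : U.Ok) {B : ℝ} {S : Site 2 → E → ℝ}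
    (hB : 0 ≤ B) (hS : ∀ z e, |S z e| ≤ B) (z : Site 2) (e : E) : |cv U S S z e| ≤ 4 * B ^ 2 := by
  unfold cv av
  refine (Finset.abs_sum_le_sum_abs _ _).trans ?_
  have h1 : ∀ i ∈ (Finset.univ : Finset ι), |U.wt z e i * ((S z (U.nx z e i) - S z e) * (S z (U.nx z e i) - S z e))| ≤
      U.wt z e i * (4 * B ^ 2) := by
    intro i _
    rw [abs_mul, abs_of_nonneg (hU.wt0 z e i)]
    refine mul_le_mul_of_nonneg_left ?_ (hU.wt0 z e i)
    have h2 : |S z (U.nx z e i) - S z e| ≤ 2 * B := by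
      have := abs_sub (S z (U.nx z e i)) (S z e)
      linarith [hS z (U.nx z e i), hS z e]
    rw [abs_mul]
    calc |S z (U.nx z e i) - S z e| * |S z (U.nx z e i) - S z e| ≤ (2 * B) * (2 * B) :=
          mul_le_mul h2 h2 (abs_nonneg _) (by linarith)
      _ = 4 * B ^ 2 := by ring
  refine (Finset.sum_le_sum h1).trans ?_
  rw [← Finset.sum_mul, hU.wt1, one_mul]

lemma av_abs {E ι : Type} [Fintype ι] {U : Sys E ι} (hU : U.Ok) {B : ℝ} {S : Site 2 → E → ℝ}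
    (hS : ∀ z e, |S z e| ≤ B) (z : Site 2) (e : E) : |av U z (S z) e| ≤ B := by
  unfold av
  refine (Finset.abs_sum_le_sum_abs _ _).trans ?_
  have h1 : ∀ i ∈ (Finset.univ : Finset ι), |U.wt z e i * S z (U.nx z e i)| ≤ U.wt z e i * B := by
    intro i _
    rw [abs_mul, abs_of_nonneg (hU.wt0 z e i)]
    exact mul_le_mul_of_nonneg_left (hS _ _) (hU.wt0 z e i)
  refine (Finset.sum_le_sum h1).trans ?_
  rw [← Finset.sum_mul, hU.wt1, one_mul]

lemma dd_abs {E ι : Type} [Fintype ι] {U : Sys E ι} (hU : U.Ok) {a : ℝ} (ha0 : 0 < a) (ha1 : a < 1) (t : MSt E) :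
    |Pool.Agent.Helper99.MKV.dd U a t| ≤ 1 := by
  unfold Pool.Agent.Helper99.MKV.dd
  rw [abs_le]
  constructor
  · linarith [hU.f0 t.1 (t.2 t.1)]
  · linarith [hU.f1 t.1 (t.2 t.1)]

theorem YVB (hINC : INC_stmt) (hBDQ : BDQ_stmt) (hBDZ : BDZ_stmt) (hFVB : FVB_stmt)
    (hDRF : DRF_stmt) : YVB_stmt := by
  intro κ C b B hκ hC hb hB
  obtain ⟨C1, h10, hQ⟩ := hBDQ κ C b B hκ hC hb hB
  obtain ⟨C2, h20, hZ⟩ := hBDZ κ C b B hκ hC hb hB
  obtain ⟨C3, h30, hF⟩ := hFVB κ C b B hκ hC hb hB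
  obtain ⟨C4, h40, hD⟩ := hDRF κ C b B hκ hC hb hB
  have hC0 : 0 ≤ C := by linarith
  have hB0 : 0 ≤ B := by linarith
  refine ⟨C1 + C2 + C2 * C + 2 * κ * B + C3 + 2 * C4 + (B + C + 2 * C * B ^ 2) + C * C2, by positivity, ?_⟩
  intro E ι _ U a S φ Φ k1 hdat hsc j k hj hjk A v hv t
  have hk : k1 ≤ k := hj.trans hjk
  have hA : 0 ≤ A := hv.1
  have hrt : Rt b k A v := ⟨hv.1, hv.2.1, hv.2.2.1⟩
  obtain ⟨w, hw⟩ : ∃ w : Site 2 → ℝ, w = fun x => v x * (κ * k - Φ k x) := ⟨_, rfl⟩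
  have hwrt : Rt b k (A * C) w := by
    refine ⟨mul_nonneg hA hC0, fun x hx => ?_, fun x => ?_⟩
    · rw [hw]; simp only; rw [hv.2.1 x hx, zero_mul]
    · rw [hw]; simp only
      by_cases hx : x ∈ Bx b k
      · rw [abs_mul]
        have h1 := hsc.near k hk x hx
        rw [abs_sub_comm] at h1
        calc |v x| * |κ * k - Φ k x| ≤ A / 4 ^ k * C := mul_le_mul (hv.2.2.1 x) h1 (abs_nonneg _) (by positivity)
          _ = A * C / 4 ^ k := by ring
      · rw [hv.2.1 x hx, zero_mul, abs_zero]; positivity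
  have hYv : ∀ t : MSt E, Yv κ φ Φ S b j k v t = κ * k * VV S (Bx b k) v t + ZZ φ (Φ k) S (Bx b k) v t -
      QQ (Hj φ (Φ j)) S (Bx b (k + 1)) v t - VV S (Bx b k) w t := by
    intro t; rw [hw]; rfl
  have hq := hQ E ι U a S φ Φ k1 hdat hsc j k hj hjk A v hrt t
  have hz := hZ E ι U a S φ Φ k1 hdat.bd hsc k hk A v hrt t
  have hz' := hZ E ι U a S φ Φ k1 hdat.bd hsc k hk (A * C) w hwrt t
  have hf := hF E ι U a S φ Φ k1 hdat hsc j k hj hjk A v hrt t
  have hd := hD E ι U a S φ Φ k1 hdat hsc j k hj hjk A v hv t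
  have hN : 0 ≤ Nk b k t.1 := by
    unfold Nk
    split_ifs
    · positivity
    · have : 0 ≤ nm t.1 := by unfold nm; positivity
      positivity
  have hG : 0 ≤ Gk b k t.1 := by
    unfold Gk
    split_ifs <;> positivity
  have h4 : (1 : ℝ) ≤ 4 ^ (k - j) := one_le_pow₀ (by norm_num)
  refine ⟨?_, ?_, ?_⟩
  · rw [hYv]
    have e : κ * k * VV S (Bx b k) v t + ZZ φ (Φ k) S (Bx b k) v t -
      QQ (Hj φ (Φ j)) S (Bx b (k + 1)) v t - VV S (Bx b k) w t - κ * k * VV S (Bx b k) v t =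
      ZZ φ (Φ k) S (Bx b k) v t - QQ (Hj φ (Φ j)) S (Bx b (k + 1)) v t - VV S (Bx b k) w t := by ring
    rw [e]
    have g1 := hz.2.1
    have g2 := hq.1
    have g3 := hz'.1
    have e1 := abs_sub (ZZ φ (Φ k) S (Bx b k) v t - QQ (Hj φ (Φ j)) S (Bx b (k + 1)) v t) (VV S (Bx b k) w t)
    have e2 := abs_sub (ZZ φ (Φ k) S (Bx b k) v t) (QQ (Hj φ (Φ j)) S (Bx b (k + 1)) v t)
    have e3 : 0 ≤ (2 * κ * B + C3 + 2 * C4 + (B + C + 2 * C * B ^ 2) + C * C2) * A := by positivity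
    linarith
  · intro i e
    rw [hYv, hYv]
    obtain ⟨z1, z2⟩ := hz.2.2 i e
    obtain ⟨z3, -⟩ := hz'.2.2 i e
    have q1 := hq.2 i e
    have hi := (hINC E ι U t i e).1 S (Bx b k) v
    have hv1 : |κ * k * (VV S (Bx b k) v (Pool.Agent.Helper99.MKV.nxt U t i e) - VV S (Bx b k) v t)| ≤ 2 * κ * B * A * Gk b k t.1 := by
      rw [hi]
      split_ifs with hx
      · have hx' : t.1 ∈ Bx b (k + 1) := Bx_mono b (Nat.le_succ k) hx
        have hGe : Gk b k t.1 = 1 / 2 ^ k := by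
          unfold Gk; rw [if_pos hx']
        rw [hGe]
        have s1 : |S t.1 (U.nx t.1 (t.2 t.1) i) - S t.1 (t.2 t.1)| ≤ 2 * B := by
          have := abs_sub (S t.1 (U.nx t.1 (t.2 t.1) i)) (S t.1 (t.2 t.1))
          linarith [hdat.bd t.1 (U.nx t.1 (t.2 t.1) i), hdat.bd t.1 (t.2 t.1)]
        have hk2 : (k : ℝ) ≤ 2 ^ k := by exact_mod_cast (Nat.lt_two_pow_self (n := k)).le
        have h22 : (4 : ℝ) ^ k = 2 ^ k * 2 ^ k := by
          rw [← mul_pow]; norm_num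
        rw [abs_mul (κ * k), abs_mul (v t.1), abs_of_nonneg (by positivity : (0 : ℝ) ≤ κ * k)]
        have h2k : (0 : ℝ) < 2 ^ k := by positivity
        calc κ * k * (|v t.1| * |S t.1 (U.nx t.1 (t.2 t.1) i) - S t.1 (t.2 t.1)|)
            ≤ κ * k * (A / 4 ^ k * (2 * B)) := by
              refine mul_le_mul_of_nonneg_left ?_ (by positivity)
              exact mul_le_mul (hv.2.2.1 t.1) s1 (abs_nonneg _) (by positivity)
          _ ≤ κ * 2 ^ k * (A / 4 ^ k * (2 * B)) := by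
              refine mul_le_mul_of_nonneg_right ?_ (by positivity)
              exact mul_le_mul_of_nonneg_left hk2 hκ.le
          _ = 2 * κ * B * A * (1 / 2 ^ k) := by
              rw [h22]; field_simp
      · rw [mul_zero, abs_zero]; positivity
    have e0 : κ * k * VV S (Bx b k) v (Pool.Agent.Helper99.MKV.nxt U t i e) + ZZ φ (Φ k) S (Bx b k) v (Pool.Agent.Helper99.MKV.nxt U t i e) -
        QQ (Hj φ (Φ j)) S (Bx b (k + 1)) v (Pool.Agent.Helper99.MKV.nxt U t i e) - VV S (Bx b k) w (Pool.Agent.Helper99.MKV.nxt U t i e) -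
        (κ * k * VV S (Bx b k) v t + ZZ φ (Φ k) S (Bx b k) v t -
        QQ (Hj φ (Φ j)) S (Bx b (k + 1)) v t - VV S (Bx b k) w t) =
        κ * k * (VV S (Bx b k) v (Pool.Agent.Helper99.MKV.nxt U t i e) - VV S (Bx b k) v t) +
        (ZZ φ (Φ k) S (Bx b k) v (Pool.Agent.Helper99.MKV.nxt U t i e) - ZZ φ (Φ k) S (Bx b k) v t) -
        (QQ (Hj φ (Φ j)) S (Bx b (k + 1)) v (Pool.Agent.Helper99.MKV.nxt U t i e) - QQ (Hj φ (Φ j)) S (Bx b (k + 1)) v t) -
        (VV S (Bx b k) w (Pool.Agent.Helper99.MKV.nxt U t i e) - VV S (Bx b k) w t) := by ring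
    rw [e0]
    generalize κ * k * (VV S (Bx b k) v (Pool.Agent.Helper99.MKV.nxt U t i e) - VV S (Bx b k) v t) = x1 at hv1 ⊢
    generalize ZZ φ (Φ k) S (Bx b k) v (Pool.Agent.Helper99.MKV.nxt U t i e) - ZZ φ (Φ k) S (Bx b k) v t = x2 at z2 ⊢
    generalize QQ (Hj φ (Φ j)) S (Bx b (k + 1)) v (Pool.Agent.Helper99.MKV.nxt U t i e) - QQ (Hj φ (Φ j)) S (Bx b (k + 1)) v t = x3 at q1 ⊢
    generalize VV S (Bx b k) w (Pool.Agent.Helper99.MKV.nxt U t i e) - VV S (Bx b k) w t = x4 at z3 ⊢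
    have f1 : |x1 + x2 - x3 - x4| ≤ |x1| + |x2| + |x3| + |x4| := by
      have := abs_sub (x1 + x2 - x3) x4
      have := abs_sub (x1 + x2) x3
      have := abs_add_le x1 x2
      linarith
    have f2 : 0 ≤ (C3 + 2 * C4 + (B + C + 2 * C * B ^ 2) + C * C2) * A * Gk b k t.1 := by positivity
    linarith [f1, f2, hv1, z2, q1, z3]
  · have hth : |Th U a (Df φ 0) S t.1 (t.2 t.1)| ≤ B + C + 2 * C * B ^ 2 := by
      unfold Th
      have g1 := av_abs hdat.ok hdat.bd t.1 (t.2 t.1)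
      have g2 := cv_abs hdat.ok hB0 hdat.bd t.1 (t.2 t.1)
      have g3 : |Df φ 0| ≤ C := by
        have := hsc.hbd 0
        have h0 : nm (0 : Site 2) = 0 := by simp [nm]
        rw [h0] at this
        simpa using this
      have g4 : |(U.f t.1 (t.2 t.1) - a) ^ 2| ≤ 1 := by
        have := dd_abs hdat.ok hdat.a0 hdat.a1 t
        unfold Pool.Agent.Helper99.MKV.dd at this
        rw [abs_pow]
        exact pow_le_one₀ (abs_nonneg _) this
      have g5 : |Df φ 0 * (U.f t.1 (t.2 t.1) - a) ^ 2| ≤ C := by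
        rw [abs_mul]
        calc _ ≤ C * 1 := mul_le_mul g3 g4 (abs_nonneg _) hC0
          _ = C := mul_one C
      have g6 : |Df φ 0 / 2 * cv U S S t.1 (t.2 t.1)| ≤ 2 * C * B ^ 2 := by
        rw [abs_mul, abs_div, abs_of_pos (by norm_num : (0 : ℝ) < 2)]
        calc |Df φ 0| / 2 * |cv U S S t.1 (t.2 t.1)| ≤ C / 2 * (4 * B ^ 2) :=
              mul_le_mul (by linarith) g2 (abs_nonneg _) (by positivity)
          _ = 2 * C * B ^ 2 := by ring
      have g7 := abs_sub (av U t.1 (S t.1) (t.2 t.1) + Df φ 0 * (U.f t.1 (t.2 t.1) - a) ^ 2)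
        (Df φ 0 / 2 * cv U S S t.1 (t.2 t.1))
      have g8 := abs_add_le (av U t.1 (S t.1) (t.2 t.1)) (Df φ 0 * (U.f t.1 (t.2 t.1) - a) ^ 2)
      linarith
    have hfd : |Pool.Agent.Helper99.MKV.dd U a t * fv Φ S b j k v t| ≤ C3 * A * 4 ^ (k - j) * Nk b k t.1 := by
      rw [abs_mul]
      have := dd_abs hdat.ok hdat.a0 hdat.a1 t
      calc _ ≤ 1 * (C3 * A * 4 ^ (k - j) * Nk b k t.1) := mul_le_mul this hf.1 (abs_nonneg _) zero_le_one
        _ = _ := one_mul _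
    by_cases hx : t.1 ∈ Bx b (k + 1)
    · have hNe : Nk b k t.1 = 1 / 4 ^ k := by unfold Nk; rw [if_pos hx]
      have d1 := hd.1 hx
      have d2 : C4 * A * (2 ^ j / 2 ^ k + 1 / 4 ^ j) / 4 ^ k ≤ 2 * C4 * A * Nk b k t.1 := by
        rw [hNe]
        have r1 : (2 : ℝ) ^ j / 2 ^ k ≤ 1 := by
          rw [div_le_one (by positivity)]
          exact pow_le_pow_right₀ (by norm_num) hjk
        have r2 : (1 : ℝ) / 4 ^ j ≤ 1 := by
          rw [div_le_one (by positivity)]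
          exact one_le_pow₀ (by norm_num)
        have r3 : C4 * A * (2 ^ j / 2 ^ k + 1 / 4 ^ j) ≤ C4 * A * 2 :=
          mul_le_mul_of_nonneg_left (by linarith) (by positivity)
        calc C4 * A * (2 ^ j / 2 ^ k + 1 / 4 ^ j) / 4 ^ k ≤ C4 * A * 2 / 4 ^ k :=
              div_le_div_of_nonneg_right r3 (by positivity)
          _ = 2 * C4 * A * (1 / 4 ^ k) := by ring
      have t1 : |v t.1 * Th U a (Df φ 0) S t.1 (t.2 t.1)| ≤ (B + C + 2 * C * B ^ 2) * A * Nk b k t.1 := by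
        rw [abs_mul, hNe]
        calc _ ≤ A / 4 ^ k * (B + C + 2 * C * B ^ 2) := mul_le_mul (hv.2.2.1 t.1) hth (abs_nonneg _) (by positivity)
          _ = _ := by ring
      have t2 : |La a (Φ k) t.1 * VV S (Bx b k) v t| ≤ C * C2 * A * Nk b k t.1 := by
        rw [abs_mul, hNe, abs_of_nonneg (hsc.mu0 k hk t.1)]
        calc _ ≤ C / 4 ^ k * (C2 * A) := mul_le_mul (hsc.mu1 k hk t.1) hz.1 (abs_nonneg _) (by positivity)
          _ = _ := by ring
      have t3 : |Dv U a φ Φ S b j k v t| ≤ |v t.1 * Th U a (Df φ 0) S t.1 (t.2 t.1)| +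
          |La a (Φ k) t.1 * VV S (Bx b k) v t| + |Pool.Agent.Helper99.MKV.dd U a t * fv Φ S b j k v t| := by
        unfold Dv
        have u1 := abs_add_le (v t.1 * Th U a (Df φ 0) S t.1 (t.2 t.1) - La a (Φ k) t.1 * VV S (Bx b k) v t)
          (Pool.Agent.Helper99.MKV.dd U a t * fv Φ S b j k v t)
        have u2 := abs_sub (v t.1 * Th U a (Df φ 0) S t.1 (t.2 t.1)) (La a (Φ k) t.1 * VV S (Bx b k) v t)
        linarith
      have t4 : |Dr U (Yv κ φ Φ S b j k v) t| ≤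
          |Dr U (Yv κ φ Φ S b j k v) t - Dv U a φ Φ S b j k v t| + |Dv U a φ Φ S b j k v t| := by
        have := abs_add_le (Dr U (Yv κ φ Φ S b j k v) t - Dv U a φ Φ S b j k v t) (Dv U a φ Φ S b j k v t)
        rwa [sub_add_cancel] at this
      have t5 : ((B + C + 2 * C * B ^ 2) + C * C2 + 2 * C4) * A * Nk b k t.1 ≤
          ((B + C + 2 * C * B ^ 2) + C * C2 + 2 * C4) * A * 4 ^ (k - j) * Nk b k t.1 := by
        refine mul_le_mul_of_nonneg_right ?_ hN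
        have : 0 ≤ ((B + C + 2 * C * B ^ 2) + C * C2 + 2 * C4) * A := by positivity
        nlinarith
      have t6 : 0 ≤ (C1 + C2 + C2 * C + 2 * κ * B) * A * 4 ^ (k - j) * Nk b k t.1 := by positivity
      linarith [t1, t2, t3, t4, t5, t6, d1, d2, hfd]
    · have hx' : t.1 ∉ Bx b k := fun h => hx (Bx_mono b (Nat.le_succ k) h)
      rw [hd.2 hx]
      have e1 : Dv U a φ Φ S b j k v t = Pool.Agent.Helper99.MKV.dd U a t * fv Φ S b j k v t := by
        unfold Dv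
        rw [hv.2.1 _ hx', hsc.muS k hk _ hx']
        ring
      rw [e1]
      have t6 : 0 ≤ (C1 + C2 + C2 * C + 2 * κ * B + 2 * C4 + (B + C + 2 * C * B ^ 2) + C * C2) * A * 4 ^ (k - j) * Nk b k t.1 := by positivity
      linarith [t6, hfd]

end Pool.Agent.Helper3.MKV
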